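import Pool.Agent.P.MP_c5b4b2_an.All

set_option autoImplicit false
open scoped ENNReal

namespace Pool.Agent.Results.MP_c5b4b2_an.ExactRange

/-- The numerical radius of an operator on a complex normed space: the supremum of `|f (T x)|`
over `‖x‖ = ‖f‖ = f x = 1`. -/
noncomputable def numRadius {X : Type} [NormedAddCommGroup X] [NormedSpace ℂ X]
    (T : X →L[ℂ] X) : ℝ :=
  sSup {s : ℝ | ∃ (x : X) (f : X →L[ℂ] ℂ), ‖x‖ = 1 ∧ ‖f‖ = 1 ∧ f x = 1 ∧ s = ‖f (T x)‖}

/-- The numerical index of a complex normed space: the infimum of the numerical radius over the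
operators of norm one. -/
noncomputable def numIndex (X : Type) [NormedAddCommGroup X] [NormedSpace ℂ X] : ℝ :=
  sInf {c : ℝ | ∃ T : X →L[ℂ] X, ‖T‖ = 1 ∧ c = numRadius T}

/-- For every index set with at least two points and every `1 < p < ∞`, the numerical index of
the complex space `ℓ_p(ι)` equals `1 / (p ^ (1 / p) * q ^ (1 / q))` exactly when `p = 2`. -/
theorem result (ι : Type) [Nontrivial ι] (p : ℝ≥0∞) [Fact (1 ≤ p)] (h1 : 1 < p) (h2 : p ≠ ⊤) :
    numIndex (lp (fun _ : ι => ℂ) p) = 1 / (p.toReal ^ (1 / p.toReal) *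
      (p.toReal / (p.toReal - 1)) ^ ((p.toReal - 1) / p.toReal)) ↔ p = 2 :=
  Pool.Agent.P.MP_c5b4b2_an.All.main ι p h1 h2

end Pool.Agent.Results.MP_c5b4b2_an.ExactRange
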