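import Pool.Agent.P.MP_c5b4b2_an.H.Rate

set_option autoImplicit false
open scoped ENNReal

namespace Pool.Agent.Results.MP_c5b4b2_an.SharpRate

/-- The numerical radius of an operator on a complex normed space: the supremum of `|f (T x)|`
over `‖x‖ = ‖f‖ = f x = 1`. -/
noncomputable def numRadius {X : Type} [NormedAddCommGroup X] [NormedSpace ℂ X]
    (T : X →L[ℂ] X) : ℝ :=
  sSup {s : ℝ | ∃ (x : X) (f : X →L[ℂ] ℂ), ‖x‖ = 1 ∧ ‖f‖ = 1 ∧ f x = 1 ∧ s = ‖f (T x)‖}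

/-- The numerical index of a complex normed space: the infimum of the numerical radius over the
operators of norm one. -/
noncomputable def numIndex (X : Type) [NormedAddCommGroup X] [NormedSpace ℂ X] : ℝ :=
  sInf {c : ℝ | ∃ T : X →L[ℂ] X, ‖T‖ = 1 ∧ c = numRadius T}

/-- As `p → ∞`, `p * n(ℓ_p^2) ^ p` tends to `1 / (2 e)`. -/
theorem result (ε : ℝ) (hε : 0 < ε) : ∃ B : ℝ, ∀ (p : ℝ≥0∞) [Fact (1 ≤ p)], p ≠ ⊤ → B ≤ p.toReal →
    |p.toReal * numIndex (PiLp p fun _ : Fin 2 => ℂ) ^ p.toReal - 1 / (2 * Real.exp 1)| ≤ ε :=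
  (Pool.Agent.P.MP_c5b4b2_an.H.rate hε).imp fun _ h p _ _ hp => h p hp

end Pool.Agent.Results.MP_c5b4b2_an.SharpRate
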